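import Pool.Agent.W988.LD.Sharp
import Pool.Agent.W988.LD.UpTrace2

/-! The degree of polynomial refutations of `k`-colourability of random graphs. -/

set_option autoImplicit false

namespace Pool.Agent.Results.MP_994c82_lc.ColouringRefutation

open Classical in
/-- the value at the graph `G` of the real polynomial `p`, whose variables are the unordered pairs
of vertices: the variable of a pair is `1` if the pair is an edge of `G` and `0` otherwise -/
noncomputable def val {n : ℕ} (p : MvPolynomial (Sym2 (Fin n)) ℝ) (G : SimpleGraph (Fin n)) : ℝ :=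
  MvPolynomial.eval (fun e => if e ∈ G.edgeSet then 1 else 0) p

/-- the expectation over the uniformly random graph on `n` labelled vertices, `G(n, 1/2)` -/
noncomputable def mean {n : ℕ} (F : SimpleGraph (Fin n) → ℝ) : ℝ :=
  (∑ G, F G) / Fintype.card (SimpleGraph (Fin n))

/-- `Refutes n k D η`: there is a polynomial of degree at most `D` that is at least `1` on all
`k`-colourable graphs, has mean `0` and second moment at most `η` -/
def Refutes (n k D : ℕ) (η : ℝ) : Prop :=
  ∃ p : MvPolynomial (Sym2 (Fin n)) ℝ, p.totalDegree ≤ D ∧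
    (∀ G : SimpleGraph (Fin n), G.Colorable k → 1 ≤ val p G) ∧
    mean (val p) = 0 ∧ mean (fun G => val p G ^ 2) ≤ η

/-- `Quiet n k D η`: there is a probability distribution on the `k`-colourable graphs such that for
every polynomial `p` of degree at most `D` the mean of `p` under it differs from the mean of `p`
over the uniformly random graph by at most `√η` standard deviations of `p` -/
def Quiet (n k D : ℕ) (η : ℝ) : Prop :=
  ∃ μ : SimpleGraph (Fin n) → ℝ, (∀ G, 0 ≤ μ G) ∧ ∑ G, μ G = 1 ∧
    (∀ G, μ G ≠ 0 → G.Colorable k) ∧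
    ∀ p : MvPolynomial (Sym2 (Fin n)) ℝ, p.totalDegree ≤ D →
      (∑ G, μ G * val p G - mean (val p)) ^ 2 ≤
        η * (mean (fun G => val p G ^ 2) - mean (val p) ^ 2)

open W988.LD

lemma no_refutation {n k D : ℕ} {η η' : ℝ} (hq : Quiet n k D η) (hη : 0 ≤ η)
    (h : η * η' < 1) : ¬ Refutes n k D η' := by
  rintro ⟨p, hp, hp1, hp0, hp2⟩
  obtain ⟨μ, hμ0, hμ1, hμc, hμp⟩ := hq
  have h1 := hμp p hp
  rw [hp0] at h1
  have h2 : (1 : ℝ) ≤ ∑ G, μ G * val p G := by
    calc (1 : ℝ) = ∑ G, μ G * 1 := by simp only [mul_one, hμ1]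
      _ ≤ _ := by
          refine Finset.sum_le_sum fun G _ => ?_
          by_cases hG : μ G = 0
          · rw [hG, zero_mul, zero_mul]
          · exact mul_le_mul_of_nonneg_left (hp1 G (hμc G hG)) (hμ0 G)
  have h3 : η * (mean (fun G => val p G ^ 2) - 0 ^ 2) ≤ η * η' :=
    mul_le_mul_of_nonneg_left (by linarith) hη
  nlinarith

/-- **The degree of refutations of `k`-colourability in `G(n, 1/2)`.** For all large `n`, all
`k ≥ 1` and all `D`:
(1) if `4 ≤ D ≤ n/8` and `k (D+2) n^(4/D) ≤ √n`, a polynomial of degree at most `D` refutes;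
(2) if `20 (log n)² ≤ D` and `7 k log n ≤ n`, a polynomial of degree at most `D` refutes;
(3) if `k ≥ √n exp(32 √(D + log n))`, no polynomial of degree at most `D` refutes: there is a
distribution on the `k`-colourable graphs that no such polynomial distinguishes from the random
graph with squared advantage more than `√n/k`, and each polynomial of such degree with mean `0` and
value at least `1` on all `k`-colourable graphs has second moment at least `k/√n`. -/
theorem result : ∃ n₀ : ℕ, ∀ n ≥ n₀, ∀ k D : ℕ, 0 < k →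
    (4 ≤ D → 8 * D ≤ n → (k : ℝ) * ((D + 2) * (n : ℝ) ^ (4 / (D : ℝ))) ≤ √n →
      Refutes n k D (1 / n)) ∧
    (20 * Real.log n ^ 2 ≤ D → 7 * k * Real.log n ≤ n → Refutes n k D (1 / n)) ∧
    (√n * Real.exp (32 * √(D + Real.log n)) ≤ k →
      Quiet n k D (√n / k) ∧ ∀ η : ℝ, η < k / √n → ¬ Refutes n k D η) := by
  obtain ⟨n₀, h₀⟩ := upper_indep
  obtain ⟨n₁, h₁⟩ := sharp
  refine ⟨max (max n₀ n₁) 1, fun n hn k D hk => ⟨?_, ?_, ?_⟩⟩
  · intro hD hDn h
    obtain ⟨p, h1, h2, h3, h4⟩ := upper_trace2 hD hDn hk h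
    exact ⟨p, h1, h2, h3, h4⟩
  · intro hD h
    obtain ⟨p, h1, h2, h3, h4⟩ := h₀ n (by omega) k hk h
    exact ⟨p, by exact_mod_cast h1.trans hD, h2, h3, h4⟩
  · intro h
    have hn1 : 1 ≤ n := by omega
    have hnpos : (0 : ℝ) < n := by exact_mod_cast hn1
    have hsn : 0 < √(n : ℝ) := Real.sqrt_pos.2 hnpos
    have hkpos : (0 : ℝ) < k := by exact_mod_cast hk
    have hL0 : 0 ≤ Real.log n := Real.log_natCast_nonneg n
    have hD0 : (0 : ℝ) ≤ D := Nat.cast_nonneg D
    have h14 : √(n : ℝ) * Real.exp (14 * √(Real.log n)) ≤ k := by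
      refine le_trans ?_ h
      refine mul_le_mul_of_nonneg_left ?_ hsn.le
      rw [Real.exp_le_exp]
      have h2 : √(Real.log n) ≤ √(D + Real.log n) := Real.sqrt_le_sqrt (by linarith)
      have h3 : 0 ≤ √(Real.log n) := Real.sqrt_nonneg _
      linarith
    have hD : 1024 * (D : ℝ) ≤ Real.log (k / √(n : ℝ)) ^ 2 := by
      have h2 : 32 * √(D + Real.log n) ≤ Real.log (k / √(n : ℝ)) := by
        rw [Real.le_log_iff_exp_le (by positivity), le_div_iff₀ hsn, mul_comm]
        exact h
      have h3 : (32 * √(D + Real.log n)) ^ 2 ≤ Real.log (k / √(n : ℝ)) ^ 2 :=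
        pow_le_pow_left₀ (by positivity) h2 2
      rw [mul_pow, Real.sq_sqrt (by linarith)] at h3
      linarith
    obtain ⟨μ, hμ0, hμ1, hμc, hμp⟩ := h₁ n (by omega) k D h14 hD
    have hquiet : Quiet n k D (√n / k) := ⟨μ, hμ0, hμ1, hμc, fun p hp => hμp p hp⟩
    refine ⟨hquiet, fun η hη => no_refutation hquiet (by positivity) ?_⟩
    calc √(n : ℝ) / k * η < √(n : ℝ) / k * (k / √n) :=
          mul_lt_mul_of_pos_left hη (by positivity)
      _ = 1 := by field_simp

end Pool.Agent.Results.MP_994c82_lc.ColouringRefutation
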