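import Pool.Agent.W953.SP.Sav

/-!
# The inclusions L ⊆ NL ⊆ P: few tests on few slices

Directed switching networks whose edges are labelled by literals have polynomial size exactly for
NL/poly, undirected ones exactly for L/poly. For monotone functions it is asked how much can be done
by decision trees of depth `t` whose tests and leaves are monotone networks (`t` NOT gates) on few
consecutive slices (a slice consists of the inputs with a given number of ones).

(A), (B): the questions whether P/poly = NL/poly and whether NL/poly = L/poly are equivalent to their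
versions for such trees of depth `t` on `2 ^ t (w + 1)` slices, for every constant `w`, and for
trees of depth `log n - K` on all inputs, for every constant `K`.

(C): without any assumption, for monotone functions of `U` variables that have circuits of size
`3 U` without NOT gates, trees of directed networks of size `2 ^ ℓ` and depth
`log U - 2 log ℓ - O(log log ℓ)` are not enough (in a more general form, for computations in
rounds), and the same holds for path systems, which are complete for P.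
-/

set_option autoImplicit false

namespace Pool.Agent.Results.MP_994c82_lc.TestsOnSlices

open Pool.Agent.H540R2 Pool.Agent.W953.SP Pool.Agent.W953.NB

variable {n : ℕ}

/-- the number of ones of an input -/
def ones (x : Fin n → Bool) : ℕ := (Finset.univ.filter (fun i => x i = true)).card

/-- the variables and their negations -/
def literals (x : Fin n → Bool) : Fin (n + n) → Bool := Fin.append x (fun i => !(x i))

/-- `f` has a circuit with at most `s` gates -/
def Circ (n : ℕ) (f : (Fin n → Bool) → Bool) (s : ℕ) : Prop :=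
  ∃ C : Circuit n, C.size ≤ s ∧ ∀ x, C.eval x = f x

/-- `f` has a circuit with at most `s` gates, none of them a NOT gate -/
def MonCirc (n : ℕ) (f : (Fin n → Bool) → Bool) (s : ℕ) : Prop :=
  ∃ C : Circuit n, C.Monotone ∧ C.size ≤ s ∧ ∀ x, C.eval x = f x

/-- `f` has a directed network of size at most `s` over the literals -/
def Dir (n : ℕ) (f : (Fin n → Bool) → Bool) (s : ℕ) : Prop :=
  ∃ N : Net (Fin (n + n)), N.size ≤ s ∧ ∀ x, N.DAcc (literals x) ↔ f x = true

/-- `f` has a monotone directed network of size at most `s` -/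
def MonDir (n : ℕ) (f : (Fin n → Bool) → Bool) (s : ℕ) : Prop :=
  ∃ N : Net (Fin n), N.size ≤ s ∧ ∀ x, N.DAcc x ↔ f x = true

/-- `f` has an undirected network of size at most `s` over the literals -/
def Und (n : ℕ) (f : (Fin n → Bool) → Bool) (s : ℕ) : Prop :=
  ∃ N : Net (Fin (n + n)), N.size ≤ s ∧ ∀ x, N.Acc (literals x) ↔ f x = true

/-- complexity `S` in the sense of `B` implies complexity `S ^ O(1)` in the sense of `A`, for
functions of at most `S` variables -/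
def Sim (A B : ∀ n : ℕ, ((Fin n → Bool) → Bool) → ℕ → Prop) : Prop :=
  ∃ c : ℕ, ∀ (S n : ℕ) (f : (Fin n → Bool) → Bool), 2 ≤ S → n ≤ S → B n f S → A n f (S ^ c)

/-- every monotone function `f` of `n ≤ S` variables with complexity `S` in the sense of `B` agrees
on the `2 ^ t (w + 1)` slices from `k` on with a decision tree of depth at most `t` and size
`S ^ O(1)` whose tests are monotone networks (`𝒯` says whether they are directed or not) -/
def TestsAndSlices (𝒯 : ∀ n : ℕ, Tests (Net (Fin n)) (Fin n))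
    (B : ∀ n : ℕ, ((Fin n → Bool) → Bool) → ℕ → Prop) (w : ℕ) : Prop :=
  ∃ c : ℕ, ∀ (S n : ℕ) (f : (Fin n → Bool) → Bool), 2 ≤ S → n ≤ S → B n f S →
    (∀ x y : Fin n → Bool, (∀ i, x i ≤ y i) → f x ≤ f y) →
    ∀ k t : ℕ, ∃ p : DTree (Net (Fin n)), p.depth ≤ t ∧ p.size (𝒯 n) ≤ S ^ c ∧
      ∀ x, k ≤ ones x → ones x < k + 2 ^ t * (w + 1) → (p.Acc (𝒯 n) x ↔ f x = true)

/-- the same with depth `log n - K` on all inputs -/
def FewTests (𝒯 : ∀ n : ℕ, Tests (Net (Fin n)) (Fin n))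
    (B : ∀ n : ℕ, ((Fin n → Bool) → Bool) → ℕ → Prop) (K : ℕ) : Prop :=
  ∃ c : ℕ, ∀ (S n : ℕ) (f : (Fin n → Bool) → Bool), 2 ≤ S → n ≤ S → B n f S →
    (∀ x y : Fin n → Bool, (∀ i, x i ≤ y i) → f x ≤ f y) →
    ∃ p : DTree (Net (Fin n)), p.depth ≤ Nat.log 2 n - K ∧ p.size (𝒯 n) ≤ S ^ c ∧
      ∀ x, p.Acc (𝒯 n) x ↔ f x = true

/-- every function `f` of `n ≤ S` variables with complexity `S` in the sense of `B` agrees on the
`w n + 1` slices from `k` on with such a tree of depth at most `t n` and size `S ^ O(1)` -/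
def SomeTestsSomeSlices (𝒯 : ∀ n : ℕ, Tests (Net (Fin n)) (Fin n))
    (B : ∀ n : ℕ, ((Fin n → Bool) → Bool) → ℕ → Prop) (t w : ℕ → ℕ) : Prop :=
  ∃ c : ℕ, ∀ (S n : ℕ) (f : (Fin n → Bool) → Bool), 2 ≤ S → n ≤ S → B n f S →
    ∀ k : ℕ, ∃ p : DTree (Net (Fin n)), p.depth ≤ t n ∧ p.size (𝒯 n) ≤ S ^ c ∧
      ∀ x, k ≤ ones x → ones x ≤ k + w n → (p.Acc (𝒯 n) x ↔ f x = true)

/-- the four equivalent statements for the tests `𝒯` and the measures `A` (for the tests with
negated variables), `B` and `M` (`B` without negations) -/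
def Equivalent (𝒯 : ∀ n : ℕ, Tests (Net (Fin n)) (Fin n))
    (A B M : ∀ n : ℕ, ((Fin n → Bool) → Bool) → ℕ → Prop) : Prop :=
  List.TFAE [Sim A B, ∀ w : ℕ, TestsAndSlices 𝒯 B w, ∀ K : ℕ, FewTests 𝒯 B K,
    ∃ t w : ℕ → ℕ, SomeTestsSomeSlices 𝒯 M t w]

/-- the function `D (log D) ^ e` -/
def near (e D : ℕ) : ℕ := (D + 1) * (Nat.log 2 (D + 1) + 6) ^ e

/-- the model of directed networks as the stronger model -/
def dirB : Big where
  G f s := dir.L f s
  M f s := dir.K f s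
  toG h := Model.L.of_K h
  incr := fun ⟨N, _, h2⟩ x y hxy => by
    rw [Bool.le_iff_imp]
    intro h
    rw [← h2] at h ⊢
    exact Net.DAcc.mono (fun i hi => by
      have := hxy i
      rw [hi] at this
      exact top_le_iff.mp this) h
  dual := fun {n f s} ⟨Q, hQ, hQf⟩ => ⟨Q, dir.mono hQ (by omega), hQf⟩

open Classical in
lemma transfer (𝒯 : ∀ n : ℕ, Tests (Net (Fin n)) (Fin n)) (𝓐 : Model) (𝓑 : Big)
    (A B M : ∀ n : ℕ, ((Fin n → Bool) → Bool) → ℕ → Prop)
    (hA : ∀ n f s, A n f s ↔ 𝓐.L f s) (hB : ∀ n f s, B n f s ↔ 𝓑.G f s)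
    (hM : ∀ n f s, M n f s ↔ 𝓑.M f s)
    (h𝓐 : ∀ (n : ℕ) (f : BF n) (s : ℕ), 𝓐.K f s →
      ∃ P : Net (Fin n), (𝒯 n).size P ≤ s ∧ ∀ x, (𝒯 n).acc P x ↔ f x = true)
    (h𝓐' : ∀ (n : ℕ) (P : Net (Fin n)),
      𝓐.K (fun x : Fin n → Bool => decide ((𝒯 n).acc P x)) ((𝒯 n).size P))
    {c : ℕ} (hc : 1 ≤ c) (hcompl : 𝓐.Compl c) : Equivalent 𝒯 A B M := by
  have hT := tfae (𝓐 := 𝓐) (𝓑 := 𝓑) hc hcompl
  have hT1 : Poly 𝓐 𝓑 → ∀ w, Windows 𝓐 𝓑 w := (hT.out 0 1).mp
  have hT2 : Poly 𝓐 𝓑 → ∀ K, Few 𝓐 𝓑 K := (hT.out 0 2).mp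
  have hT3 : (∃ t w : ℕ → ℕ, Some' 𝓐 𝓑 t w) → Poly 𝓐 𝓑 := (hT.out 0 3).mpr
  have h1 : Poly 𝓐 𝓑 → Sim A B := by
    rintro ⟨c, hc⟩
    exact ⟨c, fun S n f hS hn hf => (hA n f _).mpr (hc S n f hS hn ((hB n f S).mp hf))⟩
  have h1' : Sim A B → Poly 𝓐 𝓑 := by
    rintro ⟨c, hc⟩
    exact ⟨c, fun S n f hS hn hf => (hA n f _).mp (hc S n f hS hn ((hB n f S).mpr hf))⟩
  have h2 : ∀ w, Windows 𝓐 𝓑 w → TestsAndSlices 𝒯 B w := by
    rintro w ⟨c, hc⟩
    refine ⟨c, fun S n f hS hn hf hmon k t => ?_⟩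
    obtain ⟨g, hg, hgx⟩ := hc S n f hS hn ((hB n f S).mp hf) hmon k t
    obtain ⟨p, p1, p2, p3⟩ := tree_of_TA (h𝓐 n) hg
    exact ⟨p, p1, p2, fun x hx1 hx2 => by rw [p3, hgx x hx1 hx2]⟩
  have h3 : ∀ K, Few 𝓐 𝓑 K → FewTests 𝒯 B K := by
    rintro K ⟨c, hc⟩
    exact ⟨c, fun S n f hS hn hf hmon =>
      tree_of_TA (h𝓐 n) (hc S n f hS hn ((hB n f S).mp hf) hmon)⟩
  have h4 : ∀ t w, SomeTestsSomeSlices 𝒯 M t w → Some' 𝓐 𝓑 t w := by
    rintro t w ⟨c, hc⟩
    refine ⟨c, fun S n f hS hn hf k => ?_⟩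
    obtain ⟨p, p1, p2, p3⟩ := hc S n f hS hn ((hM n f S).mpr hf) k
    refine ⟨_, TA_of_tree (h𝓐' n) p _ _ p1 p2, fun x hx1 hx2 => ?_⟩
    rw [Bool.eq_iff_iff, decide_eq_true_iff]
    exact p3 x hx1 hx2
  have h24 : (∀ w : ℕ, TestsAndSlices 𝒯 B w) → ∃ t w : ℕ → ℕ, SomeTestsSomeSlices 𝒯 M t w := by
    intro h
    obtain ⟨c, hc⟩ := h 0
    refine ⟨fun _ => 0, fun _ => 0, c, fun S n f hS hn hf k => ?_⟩
    have hf' := (hM n f S).mp hf
    obtain ⟨p, p1, p2, p3⟩ := hc S n f hS hn ((hB n f S).mpr (𝓑.toG hf')) (𝓑.incr hf') k 0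
    exact ⟨p, p1, p2, fun x hx1 hx2 => p3 x hx1 (by simpa using Nat.lt_succ_of_le hx2)⟩
  have h34 : (∀ K : ℕ, FewTests 𝒯 B K) → ∃ t w : ℕ → ℕ, SomeTestsSomeSlices 𝒯 M t w := by
    intro h
    obtain ⟨c, hc⟩ := h 0
    refine ⟨fun n => Nat.log 2 n - 0, fun n => n, c, fun S n f hS hn hf k => ?_⟩
    have hf' := (hM n f S).mp hf
    obtain ⟨p, p1, p2, p3⟩ := hc S n f hS hn ((hB n f S).mpr (𝓑.toG hf')) (𝓑.incr hf')
    exact ⟨p, p1, p2, fun x _ _ => p3 x⟩
  unfold Equivalent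
  tfae_have 1 → 2 := fun h w => h2 w (hT1 (h1' h) w)
  tfae_have 1 → 3 := fun h K => h3 K (hT2 (h1' h) K)
  tfae_have 2 → 4 := h24
  tfae_have 3 → 4 := h34
  tfae_have 4 → 1 := fun ⟨t, w, h⟩ => h1 (hT3 ⟨t, w, h4 t w h⟩)
  tfae_finish

/-- (A) P/poly = NL/poly is equivalent to its versions with few tests by monotone directed networks
on few slices.
(B) NL/poly = L/poly is equivalent to its versions with few tests by monotone undirected networks
on few slices.
(C) Let `(ℓ + 3) ^ 2 ≤ 2 D + 1` and let `p` be a computation in rounds with monotone directed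
networks as tests, of total size at most `2 ^ ℓ` on each path. (1) If `p` decides for all path
systems on `E` whether `g` is derivable, then `|E| ≤ 2 ^ 19 near 4 D cost(p)`. (2) Let
`U = M 2 ^ 42 near 8 D` with `M ≥ 1`. For all `r` there is a circuit `C` with `U + r` variables and
at most `3 U` gates, none of them a NOT gate, such that for all `k ≤ r` no such `p` with
`cost(p) ≤ M` agrees with `C` on all inputs with at least `k` and at most `k + U` ones. -/
theorem result :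
    Equivalent (fun n => dnetTests (Fin n)) Dir Circ MonCirc ∧
    Equivalent (fun n => netTests (Fin n)) Und Dir MonDir ∧
    ∀ ℓ D : ℕ, (ℓ + 3) ^ 2 ≤ 2 * D + 1 →
      (∀ (E : Type) [Fintype E] (g : E) (p : Prog (Net (PS E))),
        p.load (dnetTests _) ≤ 2 ^ ℓ →
        (∀ v : PS E → Bool, p.Acc (dnetTests _) v ↔ Solv v g) →
        Fintype.card E ≤ 2 ^ 19 * near 4 D * p.cost) ∧
      ∀ M r U : ℕ, 1 ≤ M → U = M * (2 ^ 42 * near 8 D) →
        ∃ C : Circuit (U + r), C.Monotone ∧ C.size ≤ 3 * U ∧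
          ∀ k ≤ r, ∀ p : Prog (Net (Fin (U + r))), p.cost ≤ M → p.load (dnetTests _) ≤ 2 ^ ℓ →
            ∃ x, k ≤ ones x ∧ ones x ≤ k + U ∧ ¬ (p.Acc (dnetTests _) x ↔ C.eval x = true) := by
  classical
  refine ⟨?_, ?_, fun ℓ D hD => ?_⟩
  · refine transfer _ dir circB Dir Circ MonCirc ?_ (fun _ _ _ => Iff.rfl)
      (fun _ _ _ => Iff.rfl) (fun _ _ _ h => h) (fun n P => ⟨P, le_rfl, fun x => by
        rw [decide_eq_true_iff]; rfl⟩) (by norm_num) dir_compl
    intro n f s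
    constructor
    · rintro ⟨N, hN, hNf⟩
      refine ⟨fun y => decide (N.DAcc y), ⟨N, hN, fun y => decide_eq_true_iff.symm⟩, fun x => ?_⟩
      rw [Bool.eq_iff_iff, decide_eq_true_iff]
      exact hNf x
    · rintro ⟨Q, ⟨N, hN, hNQ⟩, hQ⟩
      exact ⟨N, hN, fun x => by rw [hNQ]; exact Iff.of_eq (congrArg (· = true) (hQ x))⟩
  · refine transfer _ und dirB Und Dir MonDir ?_ ?_
      (fun _ _ _ => Iff.rfl) (fun _ _ _ h => h) (fun n P => ⟨P, le_rfl, fun x => by
        rw [decide_eq_true_iff]; rfl⟩) (by norm_num) und_compl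
    · intro n f s
      constructor
      · rintro ⟨N, hN, hNf⟩
        refine ⟨fun y => decide (N.Acc y), ⟨N, hN, fun y => decide_eq_true_iff.symm⟩, fun x => ?_⟩
        rw [Bool.eq_iff_iff, decide_eq_true_iff]
        exact hNf x
      · rintro ⟨Q, ⟨N, hN, hNQ⟩, hQ⟩
        exact ⟨N, hN, fun x => by rw [hNQ]; exact Iff.of_eq (congrArg (· = true) (hQ x))⟩
    · intro n f s
      constructor
      · rintro ⟨N, hN, hNf⟩
        refine ⟨fun y => decide (N.DAcc y), ⟨N, hN, fun y => decide_eq_true_iff.symm⟩, fun x => ?_⟩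
        rw [Bool.eq_iff_iff, decide_eq_true_iff]
        exact hNf x
      · rintro ⟨Q, ⟨N, hN, hNQ⟩, hQ⟩
        exact ⟨N, hN, fun x => by rw [hNQ]; exact Iff.of_eq (congrArg (· = true) (hQ x))⟩
  · have e1 : gno D = 2 ^ 19 * near 4 D := by unfold gno near; ring
    have e2 : W953.PT.vno D = 2 ^ 42 * near 8 D := by unfold W953.PT.vno near; ring
    have hpow : 2 ^ (ℓ ^ 2 + 5 * ℓ + 7) * 2 ^ ℓ < 4 ^ (D + 1) := by
      have h4 : (4 : ℕ) ^ (D + 1) = 2 ^ (2 * (D + 1)) := by rw [pow_mul]; norm_num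
      rw [h4, ← pow_add]
      apply Nat.pow_lt_pow_right (by norm_num)
      have : (ℓ + 3) ^ 2 = ℓ ^ 2 + 6 * ℓ + 9 := by ring
      omega
    have hmap : ∀ {I : Type} (g : Net I → MSP I), (∀ N : Net I, N.size ≤ 2 ^ ℓ →
        (g N).size ≤ 2 ^ (ℓ ^ 2 + 5 * ℓ + 7) * N.size ∧ ∀ x, (g N).Acc x ↔ N.DAcc x) →
        ∀ p : Prog (Net I), p.load (dnetTests _) ≤ 2 ^ ℓ →
        (p.map g).load (spTests _) < 4 ^ (D + 1) := by
      intro I g hg p hp
      refine lt_of_le_of_lt (Prog.map_load (dnetTests I) (spTests I) g _ (2 ^ ℓ)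
        (fun P hP => (hg P hP).1) p hp) (lt_of_le_of_lt (Nat.mul_le_mul_left _ hp) hpow)
    refine ⟨fun E _ g p hp h => ?_, fun M r U hM hU => ?_⟩
    · obtain ⟨g', hg'⟩ := exists_toMSP (I := PS E) ℓ
      rw [← e1, ← Prog.map_cost g' p]
      refine gen_bound D E g (p.map g') (hmap g' hg' p hp) (fun v => ?_)
      rw [← h v]
      exact Prog.map_acc (dnetTests _) (spTests _) g' (2 ^ ℓ) v
        (fun P hP => (hg' P hP).2 v) p hp
    · rw [← e2] at hU
      obtain ⟨C, c1, c2, c3⟩ := hard_circ D M r U hM hU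
      refine ⟨C, c1, c2, fun k hk p hcost hp => ?_⟩
      obtain ⟨g', hg'⟩ := exists_toMSP (I := Fin (U + r)) ℓ
      obtain ⟨x, x1, x2, x3⟩ := c3 k hk (p.map g') (by rw [Prog.map_cost]; exact hcost)
        (hmap g' hg' p hp)
      refine ⟨x, x1, x2, fun hx => x3 ?_⟩
      rw [← hx]
      exact Prog.map_acc (dnetTests _) (spTests _) g' (2 ^ ℓ) x
        (fun P hP => (hg' P hP).2 x) p hp

end Pool.Agent.Results.MP_994c82_lc.TestsOnSlices
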