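import Pool.Agent.W985.QP.Tep

/-!
# Tree evaluation and nondeterministic programs which reread the leaves: the right exponent

Cook, McKenzie, Wehr, Braverman and Santhanam (Pebbles and branching programs for tree evaluation,
2012) proposed to separate `L` and `NL` from `P` by lower bounds for (nondeterministic) branching
programs for the tree evaluation problem of height `h` over `k` values: a bound `k ^ f(h)` for some
unbounded function `f` would be sufficient. The bound `k ^ (c_r * h)` is proved here for
nondeterministic programs which read each leaf at most `r` times on average on (some) accepting
computation, where `c_r = 2 ^ (- 20 (r + 1))`; the other variables may be read arbitrarily often. For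
fixed `r` this is the right exponent up to the constant `c_r`, and the exponent is unbounded as long
as `r` is at most a small multiple of `log h`.
-/

namespace Pool.Agent.Results.MP_994c82_lc.TreeEvaluationExponent

open Pool.Agent.W985.RG (NBP Var eval BoolRoot)
open Pool.Agent.W985.RS (Cheap)

open Classical in
/-- Let `C = 2 ^ (20 (r + 1))`. For each height `h ≥ C` and each number `k ≥ 2 ^ (20 h)` of values
there is a nonempty set `Y` of inputs of the Boolean tree evaluation problem for the complete binary
tree of height `h` with values in `Fin k`, for which the value of the root is 1, such that for each
nondeterministic branching program `B` with `S` nodes which accepts only inputs (of the Boolean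
problem) for which the value of the root is 1:

if `G` is the number of the inputs in `Y` which `B` accepts by a computation which reads leaves at
most `r * 2 ^ h` times (each of the `2 ^ h` leaves at most `r` times on average), then
`G ^ C * k ^ h ≤ (S * |Y|) ^ C`, that is `S * |Y| ≥ G * k ^ (h / C)`.

In particular, a program which solves the problem in this way has at least `k ^ (h / C)` nodes. -/
theorem result : ∀ r h k : ℕ, 2 ^ (20 * (r + 1)) ≤ h → 2 ^ (20 * h) ≤ k →
    ∃ Y : Finset (Var k h → Fin k), Y.Nonempty ∧
      (∀ x ∈ Y, BoolRoot h x ∧ (eval h x).val = 1) ∧ ∀ (S : ℕ) (B : NBP (Var k h) (Fin k) S),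
        (∀ x, BoolRoot h x → B.Accepts x → (eval h x).val = 1) →
        (Y.filter fun x => Cheap B r x).card ^ 2 ^ (20 * (r + 1)) * k ^ h ≤
          (S * Y.card) ^ 2 ^ (20 * (r + 1)) :=
  Pool.Agent.W985.QP.tep

end Pool.Agent.Results.MP_994c82_lc.TreeEvaluationExponent
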