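import Pool.Agent.W997.UF.Final

/-!
# Deterministic versus unambiguous programs which read few variables

We separate deterministic from unambiguous nondeterministic branching programs (the nonuniform
forms of `L` and of `UL ∩ coUL ⊆ NL`), with no restriction except that the programs read few of the
variables.  The function is tree evaluation with fan-in `d`, height `n` and alphabet
`[(2 n) ^ (512 n)]`, or rather the lowest bit of the value of the root; let `N` be the number of
variables.

* There are unambiguous programs of polynomial size which stop after `N ^ δ` steps on every input.
* Every deterministic program of size `exp (ε log² N / log log N)` reads on average more than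
  `N ^ (1 - δ)` different variables, no matter how long it runs, and even if it agrees with the
  function only on slightly more than half of the inputs.
* With size `exp (log² N / log log N)` a deterministic program with `N ^ δ` steps exists.

So the nearly quadratic loss of space in Savitch's theorem is unavoidable for deterministic
simulations which read few variables.

The upper bound generalises the construction of the starting file `ThriftyGap` (binary trees,
thrifty programs) to fan-in `d`, so that the number of variables which a small deterministic program
has to read becomes almost linear; the lower bound holds for programs which need not be thrifty.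
-/

set_option autoImplicit false

namespace Pool.Agent.Results.MP_994c82_lc.UnambiguousFewReads

open Finset
open Pool.Agent.W997.TS (Var Input rootValue bit)
open Pool.Agent.H554R2.Thrifty (BP)

/-- For every `δ > 0` there are `d`, `ε`, `c` such that for all large `n`, with `k = (2 n) ^ (512 n)`
and `N` the number of variables of tree evaluation with fan-in `d`, height `n` and alphabet `[k]`,
the lowest bit of the value of the root

* is computed by an unambiguous nondeterministic branching program of size at most `N ^ 3` all of
  whose halting computations have at most `N ^ δ` steps,
* is computed by a deterministic branching program of log size at most `log² N / log log N` all of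
  whose computations have at most `N ^ δ` steps,
* but every deterministic branching program of log size at most `ε log² N / log log N` which halts
  on all inputs, with the right answer on a fraction of at least `1 / 2 + N ^ (-c)` of them, reads
  on average at least `N ^ (1 - δ)` different variables. -/
theorem result : ∀ δ : ℝ, 0 < δ → ∃ d : ℕ, 2 ≤ d ∧ ∃ ε : ℝ, 0 < ε ∧ ∃ c : ℝ, 0 < c ∧
    ∃ n₀ : ℕ, ∀ n : ℕ, n₀ ≤ n → ∀ k : ℕ, k = (2 * n) ^ (512 * n) →
      ∀ N : ℕ, N = Fintype.card (Var d k n) →
      (∃ P : BP (Var d k n) k, P.Unambiguous ∧ P.Solves (fun x => bit (rootValue x)) ∧
        P.size ≤ N ^ 3 ∧ ∀ x l r, P.IsComp x l r → (l.length : ℝ) ≤ (N : ℝ) ^ δ) ∧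
      (∃ P : BP (Var d k n) k, P.Deterministic ∧ P.Solves (fun x => bit (rootValue x)) ∧
        Real.log P.size ≤ (Real.log N) ^ 2 / Real.log (Real.log N) ∧
        ∀ x l r, P.IsComp x l r → (l.length : ℝ) ≤ (N : ℝ) ^ δ) ∧
      (∀ P : BP (Var d k n) k, P.Deterministic →
        Real.log P.size ≤ ε * ((Real.log N) ^ 2 / Real.log (Real.log N)) →
        ∀ (L : Input d k n → List P.State) (R : Input d k n → Bool),
        (∀ x, P.IsComp x (L x) (R x)) →
        (1 / 2 + (N : ℝ) ^ (-c)) * Fintype.card (Input d k n) ≤
          (univ.filter (fun x => R x = bit (rootValue x))).card →
        (N : ℝ) ^ (1 - δ) * Fintype.card (Input d k n) ≤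
          ∑ x, (((L x).map P.query).toFinset.card : ℝ)) :=
  fun δ hδ => Pool.Agent.W997.UF.separation δ hδ

end Pool.Agent.Results.MP_994c82_lc.UnambiguousFewReads
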